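import Pool.Agent.H82.PC.Stmt

/-!
Clique sets, families of signed measures on them, local ideals (helper82, /team-store/H82_PC.md).
-/

set_option autoImplicit false
set_option linter.unusedSectionVars false

open Finset

namespace Pool.Agent.H82.PC

variable {ι V : Type} [Fintype ι] [DecidableEq ι] [Fintype V] [DecidableEq V] {F : Type} [Field F]

/-- Clique sets: all vertices lie in `B`; different elements lie in different rows and are adjacent. -/
def Cl (G : SimpleGraph V) (B : Finset V) (α : Finset (ι × V)) : Prop :=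
  (∀ x ∈ α, x.2 ∈ B) ∧ ∀ x ∈ α, ∀ y ∈ α, x ≠ y → x.1 ≠ y.1 ∧ G.Adj x.2 y.2

/-- The rows of a set. -/
def rows (α : Finset (ι × V)) : Finset ι := α.image Prod.fst

/-- A compatible family on the sets of rows `J - j`, `j ∈ J`, supported on sets in `A`. -/
structure Fam (G : SimpleGraph V) (B : Finset V) (J : Finset ι) (A : Finset (ι × V))
    (E : Finset (ι × V) → F) : Prop where
  supp : ∀ β, E β ≠ 0 → Cl G B β ∧ (∃ j ∈ J, rows β = J.erase j) ∧ β ⊆ A
  comp : ∀ i ∈ J, ∀ j ∈ J, i ≠ j → ∀ β, Cl G B β → rows β = (J.erase i).erase j →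
    ∑ v, E (insert (i, v) β) = ∑ v, E (insert (j, v) β)

/-- A function on the clique sets with the rows `J` in `A`. -/
def Full (G : SimpleGraph V) (B : Finset V) (J : Finset ι) (A : Finset (ι × V))
    (D : Finset (ι × V) → F) : Prop :=
  ∀ α, D α ≠ 0 → Cl G B α ∧ rows α = J ∧ α ⊆ A

/-- The marginals. -/
def marg (D : Finset (ι × V) → F) : Finset (ι × V) → F :=
  fun β => ∑ x ∈ univ \ β, D (insert x β)

/-- Common neighbours in `A`. -/
def Rich (G : SimpleGraph V) (B : Finset V) (J : Finset ι) (A : Finset (ι × V)) (m : ℕ) : Prop :=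
  ∀ i ∈ J, ∀ W ⊆ B, W.card ≤ m → ∃ v, (i, v) ∈ A ∧ ∀ w ∈ W, G.Adj v w

/-- The polynomials on the rows `J` which vanish on all cliques with the rows `J`. -/
def Z (G : SimpleGraph V) (B : Finset V) (J : Finset ι) : Submodule F (Finset (ι × V) → F) where
  carrier := {P | (∀ β, P β ≠ 0 → Cl G B β ∧ rows β ⊆ J) ∧
    ∀ α, Cl G B α → rows α = J → ∑ β ∈ α.powerset, P β = 0}
  zero_mem' := ⟨fun β h => absurd rfl h, fun α _ _ => sum_eq_zero fun _ _ => rfl⟩
  add_mem' := by
    rintro P Q ⟨h1, h2⟩ ⟨h3, h4⟩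
    refine ⟨fun β h => ?_, fun α ha hr => ?_⟩
    · by_cases h5 : P β = 0
      · exact h3 β fun h6 => h (by simp [h5, h6])
      · exact h1 β h5
    · simp only [Pi.add_apply, sum_add_distrib, h2 α ha hr, h4 α ha hr, add_zero]
  smul_mem' := by
    rintro c P ⟨h1, h2⟩
    refine ⟨fun β h => h1 β fun h5 => h (by simp [h5]), fun α ha hr => ?_⟩
    simp only [Pi.smul_apply, smul_eq_mul, ← mul_sum, h2 α ha hr, mul_zero]

theorem mem_Z {G : SimpleGraph V} {B : Finset V} {J : Finset ι} {P : Finset (ι × V) → F} :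
    P ∈ Z G B J ↔ (∀ β, P β ≠ 0 → Cl G B β ∧ rows β ⊆ J) ∧
      ∀ α, Cl G B α → rows α = J → ∑ β ∈ α.powerset, P β = 0 := Iff.rfl

/-- The sum of the `Z J` with at most `s` rows. -/
def U (F : Type) [Field F] (G : SimpleGraph V) (B : Finset V) (ι : Type) [Fintype ι] [DecidableEq ι] (s : ℕ) :
    Submodule F (Finset (ι × V) → F) :=
  ⨆ J ∈ (univ : Finset (Finset ι)).filter (fun J => J.card ≤ s), Z G B J

open Classical in
/-- Multiplication with the variable `x` (`x ^ 2 = x`, monomials which are no clique sets are `0`). -/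
noncomputable def mulx (G : SimpleGraph V) (B : Finset V) (x : ι × V) (P : Finset (ι × V) → F) :
    Finset (ι × V) → F :=
  fun γ => if x ∈ γ ∧ Cl G B γ then P γ + P (γ.erase x) else 0

open Classical in
/-- The reduction of a polynomial. -/
noncomputable def phi (G : SimpleGraph V) (B : Finset V) (P : MvPolynomial (ι × V) F) :
    Finset (ι × V) → F :=
  fun γ => if Cl G B γ then ∑ m ∈ P.support.filter (fun m => m.support = γ), P.coeff m else 0

/-! ### Basic facts -/

theorem Cl.mono {G : SimpleGraph V} {B : Finset V} {α β : Finset (ι × V)} (h : Cl G B α) (hβ : β ⊆ α) : Cl G B β :=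
  ⟨fun x hx => h.1 x (hβ hx), fun x hx y hy => h.2 x (hβ hx) y (hβ hy)⟩

theorem rows_insert (x : ι × V) (β : Finset (ι × V)) : rows (insert x β) = insert x.1 (rows β) := image_insert _ _ _

theorem rows_mono {α β : Finset (ι × V)} (h : β ⊆ α) : rows β ⊆ rows α := image_subset_image h

theorem mem_rows {i : ι} {β : Finset (ι × V)} : i ∈ rows β ↔ ∃ x ∈ β, x.1 = i := mem_image

theorem Cl.card_rows {G : SimpleGraph V} {B : Finset V} {α : Finset (ι × V)} (h : Cl G B α) :
    (rows α).card = α.card := by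
  refine card_image_of_injOn fun x hx y hy hxy => ?_
  by_contra hne
  exact (h.2 x hx y hy hne).1 hxy

theorem Cl.rows_erase {G : SimpleGraph V} {B : Finset V} {α : Finset (ι × V)} (h : Cl G B α) {x : ι × V} (hx : x ∈ α) :
    rows (α.erase x) = (rows α).erase x.1 := by
  ext i
  rw [mem_rows, mem_erase, mem_rows]
  constructor
  · rintro ⟨y, hy, rfl⟩
    rw [mem_erase] at hy
    exact ⟨(h.2 y hy.2 x hx hy.1).1, y, hy.2, rfl⟩
  · rintro ⟨hi, y, hy, rfl⟩
    exact ⟨y, mem_erase.2 ⟨fun h2 => hi (by rw [h2]), hy⟩, rfl⟩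

theorem cl_insert {G : SimpleGraph V} {B : Finset V} {β : Finset (ι × V)} {x : ι × V} (hx : x.1 ∉ rows β) :
    Cl G B (insert x β) ↔ Cl G B β ∧ x.2 ∈ B ∧ ∀ y ∈ β, G.Adj x.2 y.2 := by
  constructor
  · intro h
    refine ⟨h.mono (subset_insert _ _), h.1 x (mem_insert_self _ _), fun y hy => ?_⟩
    refine (h.2 x (mem_insert_self _ _) y (mem_insert_of_mem hy) fun h2 => ?_).2
    exact hx (mem_rows.2 ⟨y, hy, by rw [h2]⟩)
  · rintro ⟨h1, h2, h3⟩
    refine ⟨fun y hy => ?_, fun y hy z hz hyz => ?_⟩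
    · rcases mem_insert.1 hy with rfl | hy
      · exact h2
      · exact h1.1 y hy
    · rcases mem_insert.1 hy with hyx | hy' <;> rcases mem_insert.1 hz with hzx | hz'
      · exact absurd (hyx.trans hzx.symm) hyz
      · rw [hyx]
        exact ⟨fun h4 => hx (mem_rows.2 ⟨z, hz', h4.symm⟩), h3 z hz'⟩
      · rw [hzx]
        exact ⟨fun h4 => hx (mem_rows.2 ⟨y, hy', h4⟩), (h3 y hy').symm⟩
      · exact h1.2 y hy' z hz' hyz

end Pool.Agent.H82.PC
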