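import Pool.Agent.H82.PC.Defs

/-!
The spaces `Z G B J` and multiplication with a variable. `Pi.single β 1` is the monomial `β`.
-/

set_option autoImplicit false
set_option linter.unusedSectionVars false

open Finset

namespace Pool.Agent.H82.PC

variable {ι V : Type} [Fintype ι] [DecidableEq ι] [Fintype V] [DecidableEq V] {F : Type} [Field F]
  {G : SimpleGraph V} {B : Finset V}

theorem Z_mono {J J' : Finset ι} (h : J ⊆ J') : (Z G B J : Submodule F (Finset (ι × V) → F)) ≤ Z G B J' := by
  intro P hP
  rw [mem_Z] at hP ⊢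
  obtain ⟨h1, h2⟩ := hP
  refine ⟨fun β hβ => ⟨(h1 β hβ).1, (h1 β hβ).2.trans h⟩, fun α hα hr => ?_⟩
  have hsub : (α.filter (fun x => x.1 ∈ J)) ⊆ α := filter_subset _ _
  have hr' : rows (α.filter (fun x => x.1 ∈ J)) = J := by
    ext i
    rw [mem_rows]
    constructor
    · rintro ⟨x, hx, rfl⟩
      exact (mem_filter.1 hx).2
    · intro hi
      have : i ∈ rows α := by rw [hr]; exact h hi
      obtain ⟨x, hx, rfl⟩ := mem_rows.1 this
      exact ⟨x, mem_filter.2 ⟨hx, hi⟩, rfl⟩
  rw [← h2 _ (hα.mono hsub) hr']
  symm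
  apply sum_subset (powerset_mono.2 hsub)
  intro β hβ hn
  by_contra hne
  apply hn
  rw [mem_powerset] at hβ ⊢
  intro x hx
  exact mem_filter.2 ⟨hβ hx, (h1 β hne).2 (mem_rows.2 ⟨x, hx, rfl⟩)⟩

theorem Zm_sum_single (α β : Finset (ι × V)) :
    ∑ γ ∈ α.powerset, (Pi.single β 1 : Finset (ι × V) → F) γ = if β ⊆ α then 1 else 0 := by
  simp only [Pi.single_apply]
  rw [sum_ite_eq']
  simp only [mem_powerset]

open Classical in
theorem one_sub {i : ι} {β : Finset (ι × V)} (hβ : Cl G B β) (hi : i ∉ rows β) :
    (Pi.single β 1 - ∑ v : V, if Cl G B (insert (i, v) β) then Pi.single (insert (i, v) β) 1 else 0 :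
      Finset (ι × V) → F) ∈ (Z G B (insert i (rows β)) : Submodule F (Finset (ι × V) → F)) := by
  rw [mem_Z]
  constructor
  · intro γ hγ
    by_cases h1 : γ = β
    · subst h1
      exact ⟨hβ, subset_insert _ _⟩
    · rw [Pi.sub_apply, Pi.single_eq_of_ne h1, zero_sub, neg_ne_zero, Finset.sum_apply] at hγ
      obtain ⟨v, -, hv⟩ := exists_ne_zero_of_sum_ne_zero hγ
      by_cases h2 : Cl G B (insert (i, v) β)
      · rw [if_pos h2] at hv
        have h3 : γ = insert (i, v) β := by
          by_contra h4
          exact hv (Pi.single_eq_of_ne h4 _)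
        subst h3
        exact ⟨h2, by rw [rows_insert]⟩
      · rw [if_neg h2] at hv
        exact absurd rfl hv
  · intro α hα hr
    have e1 : ∑ γ ∈ α.powerset, (Pi.single β 1 - ∑ v : V, if Cl G B (insert (i, v) β) then
        Pi.single (insert (i, v) β) 1 else 0 : Finset (ι × V) → F) γ
        = (if β ⊆ α then (1 : F) else 0) - ∑ v : V, if (i, v) ∈ α ∧ β ⊆ α then (1 : F) else 0 := by
      simp only [Pi.sub_apply, sum_sub_distrib, Finset.sum_apply]
      rw [Zm_sum_single, sum_comm]
      congr 1
      apply sum_congr rfl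
      intro v _
      by_cases h2 : Cl G B (insert (i, v) β)
      · simp only [if_pos h2]
        rw [Zm_sum_single]
        simp only [insert_subset_iff]
      · simp only [if_neg h2, Pi.zero_apply, sum_const_zero]
        rw [if_neg]
        rintro ⟨h3, h4⟩
        exact h2 (hα.mono (insert_subset h3 h4))
    rw [e1]
    by_cases hs : β ⊆ α
    · have hi' : i ∈ rows α := by rw [hr]; exact mem_insert_self _ _
      obtain ⟨⟨j, v⟩, hx, hji⟩ := mem_rows.1 hi'
      simp only at hji
      subst hji
      simp only [hs, and_true, if_true]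
      rw [sum_eq_single v]
      · rw [if_pos hx, sub_self]
      · intro w _ hw
        rw [if_neg]
        intro hw'
        exact (hα.2 _ hx _ hw' (fun h => hw (by rw [Prod.ext_iff] at h; exact h.2.symm))).1 rfl
      · intro h
        exact absurd (mem_univ _) h
    · simp only [hs, and_false, if_false, sum_const_zero, sub_zero]

theorem Zm_pos {x : ι × V} {P : Finset (ι × V) → F} {γ : Finset (ι × V)} (h : x ∈ γ ∧ Cl G B γ) :
    mulx G B x P γ = P γ + P (γ.erase x) := if_pos h

theorem mulx_mem {J : Finset ι} (x : ι × V) {P : Finset (ι × V) → F}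
    (hP : P ∈ (Z G B J : Submodule F (Finset (ι × V) → F))) :
    mulx G B x P ∈ (Z G B (insert x.1 J) : Submodule F (Finset (ι × V) → F)) := by
  have hP' := Z_mono (subset_insert x.1 J) hP
  rw [mem_Z] at hP hP' ⊢
  constructor
  · intro γ hγ
    have h1 : x ∈ γ ∧ Cl G B γ := by
      by_contra h
      exact hγ (if_neg h)
    refine ⟨h1.2, ?_⟩
    have h2 : P γ + P (γ.erase x) ≠ 0 := by
      intro h
      apply hγ
      rw [Zm_pos h1, h]
    by_cases h3 : P γ = 0
    · have h4 : P (γ.erase x) ≠ 0 := by
        intro h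
        exact h2 (by rw [h3, h, add_zero])
      rw [← insert_erase h1.1, rows_insert]
      exact insert_subset_insert _ (hP.1 _ h4).2
    · exact (hP.1 _ h3).2.trans (subset_insert _ _)
  · intro α hα hr
    by_cases hx : x ∈ α
    · rw [← hP'.2 α hα hr]
      have e0 : α = insert x (α.erase x) := (insert_erase hx).symm
      have hn : x ∉ α.erase x := notMem_erase _ _
      have e1 : ∀ f : Finset (ι × V) → F, ∑ γ ∈ α.powerset, f γ
          = ∑ γ ∈ (α.erase x).powerset, f γ + ∑ γ ∈ (α.erase x).powerset, f (insert x γ) := by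
        intro f
        conv_lhs => rw [e0]
        exact sum_powerset_insert hn f
      rw [e1 (mulx G B x P), e1 P, ← sum_add_distrib, ← sum_add_distrib]
      apply sum_congr rfl
      intro γ hγ
      rw [mem_powerset] at hγ
      have hxγ : x ∉ γ := fun h => hn (hγ h)
      have h1 : mulx G B x P γ = 0 := if_neg (fun h => hxγ h.1)
      have h2 : mulx G B x P (insert x γ) = P (insert x γ) + P γ := by
        rw [Zm_pos ⟨mem_insert_self _ _, hα.mono (insert_subset hx (hγ.trans (erase_subset _ _)))⟩,
          erase_insert hxγ]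
      rw [h1, h2, zero_add, add_comm]
    · apply sum_eq_zero
      intro γ hγ
      exact if_neg (fun h => hx (mem_powerset.1 hγ h.1))

theorem mulx_add (x : ι × V) (P Q : Finset (ι × V) → F) : mulx G B x (P + Q) = mulx G B x P + mulx G B x Q := by
  funext γ
  simp only [mulx, Pi.add_apply]
  split_ifs
  · ring
  · rw [add_zero]

theorem mulx_zero (x : ι × V) : mulx G B x (0 : Finset (ι × V) → F) = 0 := by
  funext γ
  simp only [mulx, Pi.zero_apply, add_zero, ite_self]

/-- Multiplication with a variable as a linear map. -/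
noncomputable def Zm_lin (G : SimpleGraph V) (B : Finset V) (x : ι × V) :
    (Finset (ι × V) → F) →ₗ[F] (Finset (ι × V) → F) where
  toFun := mulx G B x
  map_add' := mulx_add x
  map_smul' := by
    intro c P
    funext γ
    simp only [mulx, Pi.smul_apply, smul_eq_mul, RingHom.id_apply]
    split_ifs
    · ring
    · rw [mul_zero]

/-- Multiplication with a variable increases the number of rows by at most 1. -/
theorem mulx_U {s : ℕ} (x : ι × V) {P : Finset (ι × V) → F} (hP : P ∈ U F G B ι s) :
    mulx G B x P ∈ U F G B ι (s + 1) := by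
  have h : U F G B ι s ≤ (U F G B ι (s + 1)).comap (Zm_lin G B x) := by
    unfold U
    refine iSup₂_le fun J hJ => ?_
    intro Q hQ
    rw [Submodule.mem_comap]
    have h1 : mulx G B x Q ∈ (Z G B (insert x.1 J) : Submodule F (Finset (ι × V) → F)) :=
      mulx_mem x hQ
    have h2 : insert x.1 J ∈ (univ : Finset (Finset ι)).filter (fun J => J.card ≤ s + 1) := by
      rw [mem_filter] at hJ ⊢
      exact ⟨mem_univ _, (card_insert_le _ _).trans (Nat.succ_le_succ hJ.2)⟩
    have h3 : (Z G B (insert x.1 J) : Submodule F (Finset (ι × V) → F)) ≤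
        ⨆ J ∈ (univ : Finset (Finset ι)).filter (fun J => J.card ≤ s + 1), Z G B J :=
      le_iSup₂_of_le (insert x.1 J) h2 le_rfl
    exact h3 h1
  exact h hP

end Pool.Agent.H82.PC
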