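/-
ROW Ph (about 110 lines). The reduction `phi` of polynomials. Uses only Defs and the statement `one_sub`, `Z_mono` of Zm.
phi_add, phi_smul (`C a * P`). PROOF. Give first: `phi G B P γ = if Cl G B γ then ∑ m ∈ T.filter (m.support = γ), P.coeff m else 0` for every `T ⊇ P.support` (`sum_subset`); then `coeff_add`, `coeff_C_mul` with a common `T`.
phi_one. PROOF. `P = monomial 0 1`; `phi_monomial`: `phi G B (monomial m c) = if Cl G B m.support then Pi.single m.support c else 0`; `Cl G B ∅` holds.
phi_X_mul. PROOF. By `MvPolynomial.induction_on'` / additivity for `P = monomial m c`: `X x * monomial m c = monomial (Finsupp.single x 1 + m) c`, `(Finsupp.single x 1 + m).support = insert x m.support`. If `Cl G B (insert x m.support)`: both sides are `Pi.single (insert x m.support) c`: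
 `mulx G B x (Pi.single β c) γ = if x ∈ γ ∧ Cl G B γ then Pi.single β c γ + Pi.single β c (γ.erase x) else 0`; for `x ∈ γ`: `γ = β` or `γ.erase x = β` (not both, exclusive as `x ∈ β` or not) iff `γ = insert x β`. If not `Cl G B (insert x β)`: left 0; right: `γ = insert x β` is excluded by `Cl G B γ`. (If not `Cl G B β` then not `Cl G B (insert x β)`, `Cl.mono`, and `phi = 0`.)
phi_axiom. PROOF. chosen: `phi (∑ v, X (i, v) - 1) = ∑ v, (if Cl G B {(i, v)} then Pi.single {(i, v)} 1 else 0) - Pi.single ∅ 1`, which is minus the element of `one_sub` for `β = ∅` (`insert (i, v) ∅ = {(i, v)}`), in `Z G B (insert i ∅) ≤ U 1`. single, edge: `phi = 0` (`X (i, v) * X (j, w)` is a monomial with support `{(i, v), (j, w)}`; not `Cl`: for `i = j` by the rows (as `v ≠ w`), for `i ≠ j` by the adjacency).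
 bool: `X ^ 2` and `X` have the same support set, so `phi (X ^ 2) = phi X`.
phi_supp. PROOF. clear from the definition: the sum is not empty.
-/
import Pool.Agent.H82.PC.Zm

set_option autoImplicit false
set_option linter.unusedSectionVars false

open Finset MvPolynomial

namespace Pool.Agent.H82.PC

variable {ι V : Type} [Fintype ι] [DecidableEq ι] [Fintype V] [DecidableEq V] {F : Type} [Field F]
  {G : SimpleGraph V} {B : Finset V}

open Classical in
theorem Ph_on (T : Finset (ι × V →₀ ℕ)) (P : MvPolynomial (ι × V) F) (h : P.support ⊆ T) (γ : Finset (ι × V)) :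
    phi G B P γ = if Cl G B γ then ∑ m ∈ T.filter (fun m => m.support = γ), P.coeff m else 0 := by
  unfold phi
  by_cases hγ : Cl G B γ
  · rw [if_pos hγ, if_pos hγ]
    refine sum_subset (filter_subset_filter _ h) fun m hm hn => ?_
    rw [mem_filter] at hm hn
    by_contra hc
    exact hn ⟨mem_support_iff.2 hc, hm.2⟩
  · rw [if_neg hγ, if_neg hγ]

theorem phi_add (P Q : MvPolynomial (ι × V) F) : phi G B (P + Q) = phi G B P + phi G B Q := by
  classical
  funext γ
  rw [Pi.add_apply, Ph_on (P.support ∪ Q.support) (P + Q) support_add,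
    Ph_on (P.support ∪ Q.support) P subset_union_left,
    Ph_on (P.support ∪ Q.support) Q subset_union_right]
  by_cases hγ : Cl G B γ
  · rw [if_pos hγ, if_pos hγ, if_pos hγ, ← sum_add_distrib]
    exact sum_congr rfl fun m _ => coeff_add m P Q
  · rw [if_neg hγ, if_neg hγ, if_neg hγ, add_zero]

theorem phi_C_mul (a : F) (P : MvPolynomial (ι × V) F) : phi G B (C a * P) = a • phi G B P := by
  classical
  funext γ
  have hs : (C a * P).support ⊆ P.support := by
    intro m hm
    rw [mem_support_iff, coeff_C_mul] at hm
    exact mem_support_iff.2 (right_ne_zero_of_mul hm)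
  rw [Pi.smul_apply, Ph_on P.support (C a * P) hs, Ph_on P.support P (Subset.refl _)]
  by_cases hγ : Cl G B γ
  · rw [if_pos hγ, if_pos hγ, smul_eq_mul, mul_sum]
    exact sum_congr rfl fun m _ => coeff_C_mul m a P
  · rw [if_neg hγ, if_neg hγ, smul_zero]

open Classical in
theorem Ph_monomial (m : ι × V →₀ ℕ) (c : F) : phi G B (monomial m c) =
    if Cl G B m.support then Pi.single m.support c else 0 := by
  funext γ
  rw [Ph_on {m} (monomial m c) support_monomial_subset]
  by_cases hγ : m.support = γ
  · subst hγ
    by_cases hc : Cl G B m.support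
    · rw [if_pos hc, if_pos hc, Pi.single_eq_same, filter_singleton, if_pos rfl, sum_singleton,
        coeff_monomial, if_pos rfl]
    · rw [if_neg hc, if_neg hc]
      rfl
  · have h1 : (if Cl G B m.support then Pi.single m.support c else 0 : Finset (ι × V) → F) γ = 0 := by
      by_cases hc : Cl G B m.support
      · rw [if_pos hc, Pi.single_eq_of_ne (Ne.symm hγ)]
      · rw [if_neg hc]
        rfl
    rw [h1, filter_singleton, if_neg hγ, sum_empty, ite_self]

theorem phi_one : phi G B (1 : MvPolynomial (ι × V) F) = Pi.single ∅ 1 := by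
  classical
  have h1 : (1 : MvPolynomial (ι × V) F) = monomial 0 1 := rfl
  have h2 : Cl G B (0 : ι × V →₀ ℕ).support := by
    rw [Finsupp.support_zero]
    exact ⟨fun x hx => absurd hx (notMem_empty x), fun x hx => absurd hx (notMem_empty x)⟩
  rw [h1, Ph_monomial, if_pos h2, Finsupp.support_zero]

theorem Ph_support (x : ι × V) (m : ι × V →₀ ℕ) :
    (Finsupp.single x 1 + m).support = insert x m.support := by
  ext y
  rw [Finsupp.mem_support_iff, Finsupp.add_apply, mem_insert, Finsupp.mem_support_iff]
  by_cases h : y = x
  · subst h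
    rw [Finsupp.single_eq_same]
    constructor
    · intro _
      exact Or.inl rfl
    · intro _
      omega
  · rw [Finsupp.single_eq_of_ne h, zero_add]
    constructor
    · intro h2
      exact Or.inr h2
    · rintro (h2 | h2)
      · exact absurd h2 h
      · exact h2

theorem Ph_X_monomial (x : ι × V) (m : ι × V →₀ ℕ) (c : F) :
    X x * monomial m c = (monomial (Finsupp.single x 1 + m) c : MvPolynomial (ι × V) F) := by
  rw [X, monomial_mul, one_mul]

theorem phi_X_mul (x : ι × V) (P : MvPolynomial (ι × V) F) : phi G B (X x * P) = mulx G B x (phi G B P) := by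
  classical
  induction P using MvPolynomial.induction_on' with
  | monomial m c =>
    rw [Ph_X_monomial, Ph_monomial, Ph_support, Ph_monomial]
    set β := m.support with hβdef
    by_cases hβ : Cl G B β
    · rw [if_pos hβ]
      funext γ
      unfold mulx
      by_cases hγ : x ∈ γ ∧ Cl G B γ
      · rw [if_pos hγ]
        by_cases hg : γ = insert x β
        · have hcl : Cl G B (insert x β) := hg ▸ hγ.2
          rw [if_pos hcl, hg, Pi.single_eq_same]
          by_cases hx : x ∈ β
          · have h1 : (insert x β).erase x ≠ β := fun h => by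
              rw [← h] at hx
              exact absurd hx (notMem_erase x _)
            rw [Pi.single_eq_of_ne h1, insert_eq_of_mem hx, Pi.single_eq_same, add_zero]
          · have h1 : insert x β ≠ β := fun h => hx (h ▸ mem_insert_self x β)
            rw [Pi.single_eq_of_ne h1, erase_insert hx, Pi.single_eq_same, zero_add]
        · have h1 : (if Cl G B (insert x β) then Pi.single (insert x β) c else 0 : Finset (ι × V) → F) γ = 0 := by
            by_cases hc : Cl G B (insert x β)
            · rw [if_pos hc, Pi.single_eq_of_ne hg]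
            · rw [if_neg hc]
              rfl
          have h2 : γ ≠ β := fun h => hg (by rw [← h, insert_eq_of_mem hγ.1])
          have h3 : γ.erase x ≠ β := fun h => hg (by rw [← h, insert_erase hγ.1])
          rw [h1, Pi.single_eq_of_ne h2, Pi.single_eq_of_ne h3, add_zero]
      · rw [if_neg hγ]
        by_cases hc : Cl G B (insert x β)
        · have hg : γ ≠ insert x β := fun h => hγ (by
            rw [h]
            exact ⟨mem_insert_self x β, hc⟩)
          rw [if_pos hc, Pi.single_eq_of_ne hg]
        · rw [if_neg hc]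
          rfl
    · have hc : ¬ Cl G B (insert x β) := fun h => hβ (h.mono (subset_insert x β))
      rw [if_neg hβ, if_neg hc, mulx_zero]
  | add p q hp hq =>
    rw [mul_add, phi_add, phi_add, mulx_add, hp, hq]

/-- `phi` as a homomorphism -/
noncomputable def Ph_hom (G : SimpleGraph V) (B : Finset V) :
    MvPolynomial (ι × V) F →+ (Finset (ι × V) → F) :=
  AddMonoidHom.mk' (phi G B) phi_add

theorem Ph_hom_apply (P : MvPolynomial (ι × V) F) : Ph_hom G B P = phi G B P := rfl

open Classical in
theorem Ph_X (x : ι × V) : phi G B (X x : MvPolynomial (ι × V) F) =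
    if Cl G B {x} then Pi.single {x} 1 else 0 := by
  have h : (X x : MvPolynomial (ι × V) F) = monomial (Finsupp.single x 1) 1 := rfl
  rw [h, Ph_monomial, Finsupp.support_single_ne_zero x one_ne_zero]

open Classical in
theorem Ph_XX (x y : ι × V) : phi G B (X x * X y : MvPolynomial (ι × V) F) =
    if Cl G B {x, y} then Pi.single {x, y} 1 else 0 := by
  have h : (X y : MvPolynomial (ι × V) F) = monomial (Finsupp.single y 1) 1 := rfl
  rw [h, Ph_X_monomial, Ph_monomial, Ph_support, Finsupp.support_single_ne_zero y one_ne_zero]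

theorem phi_axiom {k : ℕ} {P : MvPolynomial (Fin k × V) F} (hP : CliqueAxiom G k P) :
    phi G B P ∈ U F G B (Fin k) 1 := by
  classical
  cases hP with
  | chosen i =>
    have hcl : Cl G B (∅ : Finset (Fin k × V)) :=
      ⟨fun x hx => absurd hx (notMem_empty x), fun x hx => absurd hx (notMem_empty x)⟩
    have hr : rows (∅ : Finset (Fin k × V)) = ∅ := rfl
    have h1 := one_sub (F := F) (i := i) hcl (by rw [hr]; exact notMem_empty i)
    rw [hr] at h1
    have h2 : (Z G B (insert i ∅) : Submodule F (Finset (Fin k × V) → F)) ≤ U F G B (Fin k) 1 := by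
      unfold U
      refine le_iSup₂_of_le (insert i ∅) ?_ le_rfl
      rw [mem_filter]
      exact ⟨mem_univ _, by simp⟩
    have h3 := h2 h1
    have h4 : phi G B ((∑ v : V, X (i, v)) - 1 : MvPolynomial (Fin k × V) F) =
        -(Pi.single (∅ : Finset (Fin k × V)) 1 - ∑ v : V, if Cl G B (insert (i, v) (∅ : Finset (Fin k × V)))
          then Pi.single (insert (i, v) (∅ : Finset (Fin k × V))) 1 else 0 :
          Finset (Fin k × V) → F) := by
      rw [← Ph_hom_apply, map_sub, map_sum, Ph_hom_apply, phi_one, neg_sub]
      congr 1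
      refine sum_congr rfl fun v _ => ?_
      rw [Ph_hom_apply, Ph_X]
      rfl
    rw [h4]
    exact neg_mem h3
  | single i v w h =>
    have hc : ¬ Cl G B ({(i, v), (i, w)} : Finset (Fin k × V)) := by
      intro hh
      exact (hh.2 (i, v) (by simp) (i, w) (by simp) (fun he => h (congrArg Prod.snd he))).1 rfl
    rw [Ph_XX, if_neg hc]
    exact zero_mem _
  | edge i j v w hij hadj =>
    have hc : ¬ Cl G B ({(i, v), (j, w)} : Finset (Fin k × V)) := by
      intro hh
      exact hadj (hh.2 (i, v) (by simp) (j, w) (by simp) (fun he => hij (congrArg Prod.fst he))).2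
    rw [Ph_XX, if_neg hc]
    exact zero_mem _
  | bool i v =>
    have h : phi G B (X (i, v) ^ 2 - X (i, v) : MvPolynomial (Fin k × V) F) = 0 := by
      rw [← Ph_hom_apply, map_sub, Ph_hom_apply, Ph_hom_apply, sq, Ph_XX, Ph_X, pair_eq_singleton, sub_self]
    rw [h]
    exact zero_mem _

theorem phi_supp {P : MvPolynomial (ι × V) F} {γ : Finset (ι × V)} (h : phi G B P γ ≠ 0) :
    Cl G B γ ∧ ∃ m ∈ P.support, m.support = γ := by
  classical
  unfold phi at h
  by_cases hγ : Cl G B γ
  · rw [if_pos hγ] at h
    refine ⟨hγ, ?_⟩
    obtain ⟨m, hm, _⟩ := exists_ne_zero_of_sum_ne_zero h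
    rw [mem_filter] at hm
    exact ⟨m, hm.1, hm.2⟩
  · rw [if_neg hγ] at h
    exact absurd rfl h

end Pool.Agent.H82.PC
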