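/-
ROW Mg (about 90 lines). Marginals.
marg_eq. PROOF. `marg D β = ∑ x ∈ univ \ β, D (insert x β)`. If `D (insert x β) ≠ 0`, `x ∉ β`, then `rows (insert x β) = J` (`hD`), so `insert x.1 (J.erase j) = J`, hence `x.1 = j`. And `(j, v) ∉ β` for all `v`, since `j ∉ rows β`.
 So both sums are the sum over all `x` with `x.1 = j` (e.g. `sum_subset` + `sum_nbij` / `Fintype.sum_prod_type`; or write the right side as a sum over the image of `v ↦ (j, v)`).
marg_supp. PROOF. Some `x ∉ β` has `D (insert x β) ≠ 0`, so `Cl G B (insert x β)` (hence `Cl G B β`, `Cl.mono`), `rows (insert x β) = J`, `insert x β ⊆ A`; `rows β = rows ((insert x β).erase x) = J.erase x.1` (`Cl.rows_erase`, `erase_insert`).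
marg_fam. PROOF. `comp`: `rows (insert (i, v) β) = insert i ((J.erase i).erase j) = J.erase j`, so by `marg_eq` the left side is `∑ v, ∑ w, D (insert (j, w) (insert (i, v) β))`, the right side `∑ v, ∑ w, D (insert (i, w) (insert (j, v) β))`; `sum_comm`, `Insert.comm`.
-/
import Pool.Agent.H82.PC.Defs

set_option autoImplicit false
set_option linter.unusedSectionVars false

open Finset

namespace Pool.Agent.H82.PC

variable {ι V : Type} [Fintype ι] [DecidableEq ι] [Fintype V] [DecidableEq V] {F : Type} [Field F]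
  {G : SimpleGraph V} {B : Finset V} {J : Finset ι} {A : Finset (ι × V)}

theorem marg_eq {D : Finset (ι × V) → F} (hD : Full G B J A D) {j : ι} (hj : j ∈ J) {β : Finset (ι × V)}
    (hβ : rows β = J.erase j) : marg D β = ∑ v, D (insert (j, v) β) := by
  have h1 : ∑ v, D (insert (j, v) β) =
      ∑ x ∈ (univ : Finset V).image (fun v => (j, v)), D (insert x β) := by
    rw [sum_image]
    intro v _ w _ hvw
    exact (Prod.mk.inj hvw).2
  rw [h1, marg]
  symm
  apply sum_subset
  · intro x hx
    obtain ⟨v, -, rfl⟩ := mem_image.1 hx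
    rw [mem_sdiff]
    refine ⟨mem_univ _, fun h => ?_⟩
    have h2 : j ∈ rows β := mem_rows.2 ⟨_, h, rfl⟩
    rw [hβ] at h2
    exact notMem_erase j J h2
  · intro x _ hx
    by_contra hne
    obtain ⟨-, hr, -⟩ := hD _ hne
    rw [rows_insert, hβ] at hr
    have h2 : j ∈ insert x.1 (J.erase j) := by rw [hr]; exact hj
    rcases mem_insert.1 h2 with h3 | h3
    · exact hx (mem_image.2 ⟨x.2, mem_univ _, by rw [h3]⟩)
    · exact notMem_erase j J h3

theorem marg_supp {D : Finset (ι × V) → F} (hD : Full G B J A D) {β : Finset (ι × V)} (h : marg D β ≠ 0) :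
    Cl G B β ∧ (∃ j ∈ J, rows β = J.erase j) ∧ β ⊆ A := by
  obtain ⟨x, hx, hne⟩ := exists_ne_zero_of_sum_ne_zero h
  obtain ⟨hc, hr, ha⟩ := hD _ hne
  have hxβ : x ∉ β := (mem_sdiff.1 hx).2
  refine ⟨hc.mono (subset_insert _ _), ⟨x.1, ?_, ?_⟩, (subset_insert _ _).trans ha⟩
  · rw [← hr]
    exact mem_rows.2 ⟨x, mem_insert_self _ _, rfl⟩
  · have h1 := hc.rows_erase (mem_insert_self x β)
    rw [erase_insert hxβ, hr] at h1
    exact h1

theorem marg_fam {D : Finset (ι × V) → F} (hD : Full G B J A D) : Fam G B J A (marg D) := by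
  refine ⟨fun β h => marg_supp hD h, fun i hi j hj hij β _ hr => ?_⟩
  have h1 : ∀ v, marg D (insert (i, v) β) = ∑ w, D (insert (j, w) (insert (i, v) β)) := by
    intro v
    apply marg_eq hD hj
    rw [rows_insert, hr, erase_right_comm, insert_erase (mem_erase.2 ⟨hij, hi⟩)]
  have h2 : ∀ v, marg D (insert (j, v) β) = ∑ w, D (insert (i, w) (insert (j, v) β)) := by
    intro v
    apply marg_eq hD hi
    rw [rows_insert, hr, insert_erase (mem_erase.2 ⟨hij.symm, hj⟩)]
  rw [sum_congr rfl fun v _ => h1 v, sum_congr rfl fun v _ => h2 v, sum_comm]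
  exact sum_congr rfl fun w _ => sum_congr rfl fun v _ => by rw [Finset.insert_comm]

theorem marg_add (D D' : Finset (ι × V) → F) : marg (D + D') = marg D + marg D' := by
  funext β
  simp only [marg, Pi.add_apply, sum_add_distrib]

theorem Full.add {D D' : Finset (ι × V) → F} (h : Full G B J A D) (h' : Full G B J A D') : Full G B J A (D + D') := by
  intro α hα
  by_cases h1 : D α = 0
  · refine h' α fun h2 => hα ?_
    rw [Pi.add_apply, h1, h2, add_zero]
  · exact h α h1

theorem Full.mono {A' : Finset (ι × V)} {D : Finset (ι × V) → F} (h : Full G B J A D) (hA : A ⊆ A') :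
    Full G B J A' D := by
  intro α hα
  obtain ⟨h1, h2, h3⟩ := h α hα
  exact ⟨h1, h2, h3.trans hA⟩

theorem Fam.sub {E E' : Finset (ι × V) → F} (h : Fam G B J A E) (h' : Fam G B J A E') : Fam G B J A (E - E') := by
  refine ⟨fun β hβ => ?_, fun i hi j hj hij β hc hr => ?_⟩
  · by_cases h1 : E β = 0
    · refine h'.supp β fun h2 => hβ ?_
      rw [Pi.sub_apply, h1, h2, sub_zero]
    · exact h.supp β h1
  · simp only [Pi.sub_apply, sum_sub_distrib]
    rw [h.comp i hi j hj hij β hc hr, h'.comp i hi j hj hij β hc hr]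

theorem Fam.restrict {A' : Finset (ι × V)} {E : Finset (ι × V) → F} (h : Fam G B J A E)
    (hA : ∀ β, E β ≠ 0 → β ⊆ A') : Fam G B J A' E := by
  refine ⟨fun β hβ => ?_, h.comp⟩
  obtain ⟨h1, h2, -⟩ := h.supp β hβ
  exact ⟨h1, h2, hA β hβ⟩

end Pool.Agent.H82.PC
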