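/-
ROW Fn (about 80 lines). The last step of the extension: a family on the neighbours of the vertex of `x0`, without the row of `x0`. Uses the statements of Mg (not of Ps).
PROOF. `D α := if x0 ∈ α then E (α.erase x0) else 0`.
 Full: `D α ≠ 0`: `x0 ∈ α`, `hE.supp`: `Cl G B (α.erase x0)`, `rows (α.erase x0) = J.erase j`, `α.erase x0 ⊆ A2`. By `hA2` `x0.1 ∉ rows (α.erase x0)`, so (`x0.1 ∈ J`) `j = x0.1`. `α = insert x0 (α.erase x0)`, `cl_insert`, `rows_insert`, `insert_erase`.
 marg D β = E β. Case `x0 ∉ β`: `D (insert x β) = 0` for `x ∉ β` unless `x = x0`; `D (insert x0 β) = E β`. (`sum_eq_single x0`.)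
 Case `x0 ∈ β`: `E β = 0`, since `x0 ∉ A2`. Put `β' = β.erase x0`; `marg D β = ∑ x ∈ univ \ β, E (insert x β')`. If all terms are 0: done. Else let `x ∉ β`, `E (insert x β') ≠ 0`, `j = x.1`: by `hE.supp` + `hA2` `rows (insert x β') = J.erase x0.1`, `j ∈ J`, `j ≠ x0.1`, `Cl G B β'`, `j ∉ rows β'` (as `x ∉ β'`, `Cl` of `insert x β'`),
 `rows β' = (J.erase x0.1).erase j`. Then `∑ x ∈ univ \ β, E (insert x β') = ∑ v, E (insert (j, v) β')`: every `y ∉ β` with `E (insert y β') ≠ 0` has `rows (insert y β') = J.erase x0.1`, so `y.1 = j`; and `(j, v) ∉ β` for all `v` (`j ≠ x0.1`, `j ∉ rows β'`). By `hE.comp x0.1 _ j _ _ β'` it is `∑ v, E (insert (x0.1, v) β') = 0`, since `(x0.1, v) ∉ A2`.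
-/
import Pool.Agent.H82.PC.Mg

set_option autoImplicit false
set_option linter.unusedSectionVars false

open Finset

namespace Pool.Agent.H82.PC

variable {ι V : Type} [Fintype ι] [DecidableEq ι] [Fintype V] [DecidableEq V] {F : Type} [Field F]
  {G : SimpleGraph V} {B : Finset V} {J : Finset ι} {A : Finset (ι × V)}

theorem last_step {x0 : ι × V} (hx : x0.1 ∈ J) (hxA : x0 ∈ A) (hxB : x0.2 ∈ B) {A2 : Finset (ι × V)}
    (hA : A2 ⊆ A) (hA2 : ∀ x ∈ A2, x.1 ≠ x0.1 ∧ G.Adj x.2 x0.2) {E : Finset (ι × V) → F} (hE : Fam G B J A2 E) :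
    ∃ D : Finset (ι × V) → F, Full G B J A D ∧ marg D = E := by
  classical
  have hx0 : ∀ β : Finset (ι × V), β ⊆ A2 → x0.1 ∉ rows β := by
    intro β hβ h
    obtain ⟨y, hy, hy1⟩ := mem_rows.1 h
    exact (hA2 y (hβ hy)).1 hy1
  have hrow : ∀ β : Finset (ι × V), E β ≠ 0 → Cl G B β ∧ rows β = J.erase x0.1 ∧ β ⊆ A2 := by
    intro β hβ
    obtain ⟨h1, ⟨j, hj, h2⟩, h3⟩ := hE.supp β hβ
    have h4 := hx0 β h3
    rw [h2, mem_erase] at h4
    have h5 : x0.1 = j := by
      by_contra hne
      exact h4 ⟨hne, hx⟩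
    exact ⟨h1, by rw [h2, h5], h3⟩
  refine ⟨fun α => if x0 ∈ α then E (α.erase x0) else 0, ?_, ?_⟩
  · intro α hα
    dsimp only at hα
    have h0 : x0 ∈ α := by
      by_contra h
      exact hα (if_neg h)
    rw [if_pos h0] at hα
    obtain ⟨h1, h2, h3⟩ := hrow _ hα
    have h4 := hx0 _ h3
    have e : α = insert x0 (α.erase x0) := (insert_erase h0).symm
    refine ⟨?_, ?_, ?_⟩
    · rw [e, cl_insert h4]
      exact ⟨h1, hxB, fun y hy => (hA2 y (h3 hy)).2.symm⟩
    · rw [e, rows_insert, h2, insert_erase hx]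
    · rw [e]
      exact insert_subset hxA (h3.trans hA)
  · funext β
    unfold marg
    beta_reduce
    by_cases hβ : x0 ∈ β
    · have hz : E β = 0 := by
        by_contra h
        exact (hA2 x0 ((hrow β h).2.2 hβ)).1 rfl
      rw [hz]
      have hs : ∀ y ∈ univ \ β, (if x0 ∈ insert y β then E ((insert y β).erase x0) else 0)
          = E (insert y (β.erase x0)) := by
        intro y hy
        have hyβ : y ∉ β := (mem_sdiff.1 hy).2
        have hne : y ≠ x0 := fun h => hyβ (by rw [h]; exact hβ)
        rw [if_pos (mem_insert_of_mem hβ), erase_insert_of_ne hne]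
      rw [sum_congr rfl hs]
      by_cases hall : ∀ y ∈ univ \ β, E (insert y (β.erase x0)) = 0
      · exact sum_eq_zero hall
      · push Not at hall
        obtain ⟨x, hxm, hxE⟩ := hall
        have hxβ : x ∉ β := (mem_sdiff.1 hxm).2
        have hxβ' : x ∉ β.erase x0 := fun h => hxβ (mem_of_mem_erase h)
        obtain ⟨h1, h2, h3⟩ := hrow _ hxE
        have hjr : x.1 ∈ rows (insert x (β.erase x0)) := mem_rows.2 ⟨x, mem_insert_self _ _, rfl⟩
        rw [h2, mem_erase] at hjr
        have hCl : Cl G B (β.erase x0) := h1.mono (subset_insert _ _)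
        have hrβ : rows (β.erase x0) = (J.erase x0.1).erase x.1 := by
          have h4 := h1.rows_erase (mem_insert_self x (β.erase x0))
          rw [erase_insert hxβ', h2] at h4
          exact h4
        have hcomp := hE.comp x0.1 hx x.1 hjr.2 (fun h => hjr.1 h.symm) (β.erase x0) hCl hrβ
        have hinj : Function.Injective (fun v : V => ((x.1, v) : ι × V)) := by
          intro v w h
          exact (Prod.mk.inj h).2
        have key : ∑ y ∈ univ.image (fun v : V => ((x.1, v) : ι × V)), E (insert y (β.erase x0))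
            = ∑ y ∈ univ \ β, E (insert y (β.erase x0)) := by
          apply sum_subset
          · intro y hy
            obtain ⟨v, -, rfl⟩ := mem_image.1 hy
            rw [mem_sdiff]
            refine ⟨mem_univ _, fun h => ?_⟩
            have hne : ((x.1, v) : ι × V) ≠ x0 := fun h5 => hjr.1 (by rw [← h5])
            have hm : x.1 ∈ rows (β.erase x0) := mem_rows.2 ⟨(x.1, v), mem_erase.2 ⟨hne, h⟩, rfl⟩
            rw [hrβ] at hm
            exact (mem_erase.1 hm).1 rfl
          · intro y hy hy2
            by_contra hne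
            obtain ⟨-, h5, -⟩ := hrow _ hne
            rw [rows_insert, hrβ] at h5
            have h6 : x.1 ∈ insert y.1 ((J.erase x0.1).erase x.1) := by
              rw [h5, mem_erase]
              exact hjr
            rcases mem_insert.1 h6 with h7 | h7
            · exact hy2 (mem_image.2 ⟨y.2, mem_univ _, by rw [h7]⟩)
            · exact (mem_erase.1 h7).1 rfl
        rw [← key, sum_image (fun a _ b _ h => hinj h)]
        rw [← hcomp]
        apply sum_eq_zero
        intro v _
        by_contra hne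
        exact (hA2 (x0.1, v) ((hrow _ hne).2.2 (mem_insert_self _ _))).1 rfl
    · rw [sum_eq_single x0]
      · rw [if_pos (mem_insert_self _ _), erase_insert hβ]
      · intro y hy hne
        rw [if_neg]
        intro h
        rcases mem_insert.1 h with h1 | h1
        · exact hne h1.symm
        · exact hβ h1
      · intro h
        exact absurd (mem_sdiff.2 ⟨mem_univ _, hβ⟩) h

end Pool.Agent.H82.PC
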