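/-
ROW Ps (about 100 lines). Mass is pushed off one vertex. Uses the statements of Mg.
link_fam. PROOF. supp: let `link w E β ≠ 0`, so `w ∉ β` and `E (insert w β) ≠ 0`; by `hE.supp` `Cl G B (insert w β)`, `rows (insert w β) = J.erase j`, `j ∈ J`, `insert w β ⊆ A`. `w.1 ∈ rows (insert w β)`, so `j ≠ w.1`;
 `rows β = rows ((insert w β).erase w) = (J.erase j).erase w.1 = (J.erase w.1).erase j` (`Cl.rows_erase`, `erase_insert`, `erase_right_comm`). For `x ∈ β`: `x ≠ w`, so `x.1 ≠ w.1`, `G.Adj x.2 w.2` (second part of `Cl`).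
 comp: `i ≠ j` in `J.erase w.1`, `Cl G B β`, `rows β = ((J.erase w.1).erase i).erase j`. `w ∉ insert (i, v) β` (`w.1 ≠ i`, `w.1 ∉ rows β`), so `link w E (insert (i, v) β) = E (insert (i, v) (insert w β))`; the same for `j`. If `Cl G B (insert w β)`: `rows (insert w β) = (J.erase i).erase j`
 and `hE.comp i _ j _ _ (insert w β)`. If not: all `E (insert (i, v) (insert w β))` are 0 (`hE.supp`, `Cl.mono`).
push. PROOF. `D0 α := if w ∈ α then D' (α.erase w) else 0`. Full: if `D0 α ≠ 0` then `w ∈ α`, `hD'` for `α.erase w`: `Cl G B (α.erase w)`, `rows (α.erase w) = J.erase w.1`, `α.erase w ⊆ A.filter ..`; `α = insert w (α.erase w)`; `cl_insert` (`w.1 ∉ rows (α.erase w)`, `w.2 ∈ B`, adjacency from the filter); `rows α = insert w.1 (J.erase w.1) = J`.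
 Fam on `A`: `Fam.sub hE (marg_fam ..)`; then `Fam.restrict`: let `(E - marg D0) β ≠ 0`; `β ⊆ A` as one of the two is not zero; `w ∉ β`: suppose `w ∈ β`; `marg D0 β = ∑ x ∈ univ \ β, D' (insert x (β.erase w))` (`x ≠ w`, `erase_insert_of_ne`) and `marg D' (β.erase w) =` this `+ D' (insert w (β.erase w))` [the set `univ \ β.erase w` is `insert w (univ \ β)`],
 and `D' (insert w (β.erase w)) = 0` since `w` is not in the filter. `marg D' (β.erase w) = link w E (β.erase w) = E β`. So `E β = marg D0 β`.
-/
import Pool.Agent.H82.PC.Mg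

set_option autoImplicit false
set_option linter.unusedSectionVars false

open Finset

namespace Pool.Agent.H82.PC

variable {ι V : Type} [Fintype ι] [DecidableEq ι] [Fintype V] [DecidableEq V] {F : Type} [Field F]
  {G : SimpleGraph V} {B : Finset V} {J : Finset ι} {A : Finset (ι × V)}

/-- The family of the sets which contain `w`. -/
def link (w : ι × V) (E : Finset (ι × V) → F) : Finset (ι × V) → F := fun β => if w ∈ β then 0 else E (insert w β)

open Classical in
theorem link_fam {E : Finset (ι × V) → F} (hE : Fam G B J A E) {w : ι × V} (hw : w.1 ∈ J) :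
    Fam G B (J.erase w.1) (A.filter fun x => x.1 ≠ w.1 ∧ G.Adj x.2 w.2) (link w E) := by
  refine ⟨fun β hβ => ?_, fun i hi j hj hij β hc hr => ?_⟩
  · have hwβ : w ∉ β := by
      intro h
      exact hβ (by simp only [link, if_pos h])
    have hne : E (insert w β) ≠ 0 := by
      intro h
      exact hβ (by simp only [link, if_neg hwβ, h])
    obtain ⟨h1, ⟨j, hj, h2⟩, h3⟩ := hE.supp _ hne
    have hw1 : w ∈ insert w β := mem_insert_self _ _
    have hw2 : w.1 ∈ J.erase j := by
      rw [← h2]
      exact mem_rows.2 ⟨w, hw1, rfl⟩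
    have hjw : w.1 ≠ j := (mem_erase.1 hw2).1
    refine ⟨h1.mono (subset_insert _ _), ⟨j, mem_erase.2 ⟨hjw.symm, hj⟩, ?_⟩, ?_⟩
    · have h4 := h1.rows_erase hw1
      rw [erase_insert hwβ, h2] at h4
      rw [h4, erase_right_comm]
    · intro x hx
      have hxw : x ≠ w := fun h => hwβ (h ▸ hx)
      exact mem_filter.2 ⟨h3 (mem_insert_of_mem hx), h1.2 x (mem_insert_of_mem hx) w hw1 hxw⟩
  · obtain ⟨hiw, hiJ⟩ := mem_erase.1 hi
    obtain ⟨hjw, hjJ⟩ := mem_erase.1 hj
    have hwr : w.1 ∉ rows β := by
      rw [hr]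
      intro h
      exact notMem_erase w.1 J (mem_of_mem_erase (mem_of_mem_erase h))
    have hl : ∀ l : ι, l ≠ w.1 → ∀ v : V, link w E (insert (l, v) β) = E (insert (l, v) (insert w β)) := by
      intro l hl v
      have h1 : w ∉ insert (l, v) β := by
        intro h
        rcases mem_insert.1 h with h2 | h2
        · exact hl (by rw [h2])
        · exact hwr (mem_rows.2 ⟨w, h2, rfl⟩)
      simp only [link, if_neg h1]
      rw [Finset.insert_comm]
    rw [sum_congr rfl fun v _ => hl i hiw v, sum_congr rfl fun v _ => hl j hjw v]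
    by_cases hcw : Cl G B (insert w β)
    · refine hE.comp i hiJ j hjJ hij _ hcw ?_
      rw [rows_insert, hr, erase_right_comm (a := w.1), erase_right_comm (a := w.1)]
      exact insert_erase (mem_erase.2 ⟨hjw.symm, mem_erase.2 ⟨hiw.symm, hw⟩⟩)
    · have hz : ∀ l : ι, ∀ v : V, E (insert (l, v) (insert w β)) = 0 := by
        intro l v
        by_contra h
        exact hcw ((hE.supp _ h).1.mono (subset_insert _ _))
      rw [sum_congr rfl fun v _ => hz i v, sum_congr rfl fun v _ => hz j v]

open Classical in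
theorem push {E : Finset (ι × V) → F} (hE : Fam G B J A E) {w : ι × V} (hw : w.1 ∈ J) (hwA : w ∈ A) (hwB : w.2 ∈ B)
    {D' : Finset (ι × V) → F} (hD' : Full G B (J.erase w.1) (A.filter fun x => x.1 ≠ w.1 ∧ G.Adj x.2 w.2) D')
    (h : marg D' = link w E) :
    ∃ D0 : Finset (ι × V) → F, Full G B J A D0 ∧ Fam G B J (A.erase w) (E - marg D0) := by
  have hfull : Full G B J A (fun α => if w ∈ α then D' (α.erase w) else 0) := by
    intro α hα
    have hwα : w ∈ α := by
      by_contra h
      exact hα (if_neg h)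
    have hne : D' (α.erase w) ≠ 0 := by
      intro h
      exact hα (by simp only [if_pos hwα, h])
    obtain ⟨h1, h2, h3⟩ := hD' _ hne
    have hwr : w.1 ∉ rows (α.erase w) := by
      rw [h2]
      exact notMem_erase _ _
    have hins : insert w (α.erase w) = α := insert_erase hwα
    refine ⟨?_, ?_, ?_⟩
    · rw [← hins, cl_insert hwr]
      exact ⟨h1, hwB, fun y hy => ((mem_filter.1 (h3 hy)).2.2).symm⟩
    · rw [← hins, rows_insert, h2]
      exact insert_erase hw
    · rw [← hins]
      exact insert_subset hwA (h3.trans (filter_subset _ _))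
  refine ⟨_, hfull, (hE.sub (marg_fam hfull)).restrict ?_⟩
  intro β hβ
  have hβA : β ⊆ A := by
    by_cases h1 : E β = 0
    · refine (marg_supp hfull (β := β) fun h2 => hβ ?_).2.2
      rw [Pi.sub_apply, h1, h2, sub_zero]
    · exact (hE.supp β h1).2.2
  refine subset_erase.2 ⟨hβA, fun hwβ => hβ ?_⟩
  have hins : insert w (β.erase w) = β := insert_erase hwβ
  have h1 : marg D' (β.erase w) = E β := by
    rw [h]
    simp only [link, if_neg (notMem_erase w β), hins]
  have h2 : D' (insert w (β.erase w)) = 0 := by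
    by_contra h3
    have h4 := (hD' _ h3).2.2 (mem_insert_self _ _)
    exact (mem_filter.1 h4).2.1 rfl
  have h3 : (univ : Finset (ι × V)) \ β.erase w = insert w (univ \ β) := by
    ext x
    simp only [mem_sdiff, mem_univ, true_and, mem_erase, mem_insert, not_and]
    constructor
    · intro h4
      by_cases h5 : x = w
      · exact Or.inl h5
      · exact Or.inr (h4 h5)
    · rintro (h4 | h4) h5
      · exact absurd h4 h5
      · exact h4
  have h4 : w ∉ (univ : Finset (ι × V)) \ β := fun h5 => (mem_sdiff.1 h5).2 hwβ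
  rw [marg, h3, sum_insert h4, h2, zero_add] at h1
  rw [Pi.sub_apply, sub_eq_zero, ← h1, marg]
  refine sum_congr rfl fun x hx => ?_
  have hxw : x ≠ w := fun h5 => h4 (h5 ▸ hx)
  rw [if_pos (mem_insert_of_mem hwβ), erase_insert_of_ne hxw]

end Pool.Agent.H82.PC
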