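/-
ROW Ex (about 110 lines). The extension lemma. Uses the statements of Mg, Ps, Fn.
push_many. PROOF. Induction on `T` (`Finset.induction_on`, `A` fixed). `T = ∅`: `D = 0`. `T = insert w T'` (`w ∉ T'`): the hypotheses hold for `T'` (`A \ insert w T' ⊆ A \ T' ⊆ A'`), so there is `D1`, `E1 = E - marg D1` is a family on `A \ T'`. If `w ∉ A` then `A \ insert w T' = A \ T'`: done. If `w ∈ A`: `link_fam`, `IH` for `J.erase w.1`
 (card `s + 1`) with the set `(A \ T').filter ..` (Rich by `hR w _ (A \ T')`): `D'` with `marg D' = link w E1`; `push`: `D0`, `E1 - marg D0` is a family on `(A \ T').erase w = A \ insert w T'` (`sdiff_insert`). `D = D1 + D0` (`marg_add`, `Full.add`, `Full.mono`).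
ext_main. PROOF. Induction on `s` (generalizing `J A E`). First replace `A` by `A.filter (x.1 ∈ J)` (`Fam.restrict`: `rows β = J.erase j ⊆ J`; Rich is the same; `Full.mono` at the end), so all `x ∈ A` have `x.1 ∈ J`. In both cases `J` is nonempty, `i0 ∈ J`, `hR i0 _ ∅`: `x0 = (i0, v0) ∈ A`, `v0 ∈ B`.
 `s = 0`: `J = {i0}`; if `E β ≠ 0` then `rows β = J.erase j = ∅` so `β = ∅`: `E` is a family on `A2 = ∅` (`Fam.restrict`); `last_step`.
 `s + 1`: `T1 = A.filter (x.1 ≠ i0 ∧ ¬ G.Adj x.2 v0)`. `push_many` (IH) for `A, T1`: let `w ∈ T1`, `A \ T1 ⊆ A' ⊆ A`; Rich of `A'.filter ..` for `J.erase w.1`: for `i ∈ J.erase w.1`, `W ⊆ B`, `#W ≤ 2 s` use `hR i _ (insert v0 (insert w.2 W))` (at most `2 s + 2` elements): `(i, v) ∈ A`, `v` adjacent to `v0` so `(i, v) ∉ T1`, to `w.2`, to `W`.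
  Then `A1 = A \ T1`, `T2 = A1.filter (x.1 = i0)`. `push_many` for `A1, T2`: `w ∈ T2`, `w.1 = i0`, `A1 \ T2 ⊆ A' ⊆ A1`; for `i ∈ J.erase i0`: the same vertex: `(i, v) ∈ A1`, `∉ T2` since `i ≠ i0`. Then `A2 = A1 \ T2` satisfies the hypothesis of `last_step`. Add the three `D`s (`marg_add`, `Full.add`, `Full.mono`, all in `A`).
-/
import Pool.Agent.H82.PC.Ps
import Pool.Agent.H82.PC.Fn

set_option autoImplicit false
set_option linter.unusedSectionVars false

open Finset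

namespace Pool.Agent.H82.PC

variable {ι V : Type} [Fintype ι] [DecidableEq ι] [Fintype V] [DecidableEq V] {F : Type} [Field F]
  {G : SimpleGraph V} {B : Finset V} {J : Finset ι} {A : Finset (ι × V)}

open Classical in
theorem push_many {s : ℕ}
    (IH : ∀ (J : Finset ι) (A : Finset (ι × V)) (E : Finset (ι × V) → F), J.card = s + 1 → Rich G B J A (2 * s) →
      (∀ x ∈ A, x.2 ∈ B) → Fam G B J A E → ∃ D : Finset (ι × V) → F, Full G B J A D ∧ marg D = E)
    (hJ : J.card = s + 2) (hA : ∀ x ∈ A, x.2 ∈ B) (T : Finset (ι × V)) (hT : ∀ w ∈ T, w.1 ∈ J)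
    (hR : ∀ w ∈ T, ∀ A' : Finset (ι × V), A \ T ⊆ A' → A' ⊆ A →
      Rich G B (J.erase w.1) (A'.filter fun x => x.1 ≠ w.1 ∧ G.Adj x.2 w.2) (2 * s))
    {E : Finset (ι × V) → F} (hE : Fam G B J A E) :
    ∃ D : Finset (ι × V) → F, Full G B J A D ∧ Fam G B J (A \ T) (E - marg D) := by
  induction T using Finset.induction_on with
  | empty =>
    refine ⟨0, fun α h => absurd rfl h, ?_⟩
    have h0 : marg (0 : Finset (ι × V) → F) = 0 := by
      funext β
      exact sum_eq_zero fun _ _ => rfl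
    rw [h0, sub_zero, sdiff_empty]
    exact hE
  | insert w T' hw ih =>
    have hsub : A \ insert w T' ⊆ A \ T' := sdiff_subset_sdiff (Subset.refl _) (subset_insert _ _)
    obtain ⟨D1, hD1, hE1⟩ := ih (fun x hx => hT x (mem_insert_of_mem hx))
      (fun x hx A' h1 h2 => hR x (mem_insert_of_mem hx) A' (hsub.trans h1) h2)
    by_cases hwA : w ∈ A
    · have hwJ : w.1 ∈ J := hT w (mem_insert_self _ _)
      have hwA1 : w ∈ A \ T' := mem_sdiff.2 ⟨hwA, hw⟩
      obtain ⟨D', hD', hm⟩ := IH (J.erase w.1) _ _ (by rw [card_erase_of_mem hwJ, hJ]; rfl)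
        (hR w (mem_insert_self _ _) (A \ T') hsub sdiff_subset)
        (fun x hx => hA x (mem_sdiff.1 (mem_filter.1 hx).1).1) (link_fam hE1 hwJ)
      obtain ⟨D0, hD0, hF⟩ := push hE1 hwJ hwA1 (hA w hwA) hD' hm
      refine ⟨D1 + D0, hD1.add (hD0.mono sdiff_subset), ?_⟩
      have h3 : A \ insert w T' = (A \ T').erase w := by
        ext x
        simp only [mem_sdiff, mem_insert, mem_erase, not_or]
        tauto
      rw [h3, marg_add, ← sub_sub]
      exact hF
    · refine ⟨D1, hD1, ?_⟩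
      have h3 : A \ insert w T' = A \ T' := by
        ext x
        simp only [mem_sdiff, mem_insert, not_or]
        constructor
        · rintro ⟨h4, h5, h6⟩
          exact ⟨h4, h6⟩
        · rintro ⟨h4, h5⟩
          exact ⟨h4, fun h6 => hwA (h6 ▸ h4), h5⟩
      rw [h3]
      exact hE1

/-- The extension lemma. -/
theorem ext_main (s : ℕ) (J : Finset ι) (A : Finset (ι × V)) (E : Finset (ι × V) → F) (hJ : J.card = s + 1)
    (hR : Rich G B J A (2 * s)) (hA : ∀ x ∈ A, x.2 ∈ B) (hE : Fam G B J A E) :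
    ∃ D : Finset (ι × V) → F, Full G B J A D ∧ marg D = E := by
  classical
  induction s generalizing J A E with
  | zero =>
    obtain ⟨i0, rfl⟩ := card_eq_one.1 hJ
    have hi0 : i0 ∈ ({i0} : Finset ι) := mem_singleton_self _
    obtain ⟨v0, hv0, -⟩ := hR i0 hi0 ∅ (empty_subset _) (by simp)
    have hE' : Fam G B {i0} ∅ E := by
      refine hE.restrict fun β hβ => ?_
      obtain ⟨-, ⟨j, hj, hr⟩, -⟩ := hE.supp β hβ
      rw [mem_singleton] at hj
      subst hj
      have h1 : rows β = ∅ := by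
        rw [hr]
        exact erase_eq_empty_iff _ _ |>.2 (Or.inr rfl)
      unfold rows at h1
      rw [image_eq_empty] at h1
      rw [h1]
    exact last_step (x0 := (i0, v0)) hi0 hv0 (hA _ hv0) (empty_subset _) (fun x hx => absurd hx (notMem_empty _)) hE'
  | succ s IH =>
    obtain ⟨A0, hA0⟩ : ∃ A0, A0 = A.filter fun x => x.1 ∈ J := ⟨_, rfl⟩
    have hA0A : A0 ⊆ A := by rw [hA0]; exact filter_subset _ _
    have hA0J : ∀ x ∈ A0, x.1 ∈ J := by
      intro x hx
      rw [hA0] at hx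
      exact (mem_filter.1 hx).2
    have hE0 : Fam G B J A0 E := by
      refine hE.restrict fun β hβ x hx => ?_
      obtain ⟨-, ⟨j, hj, hr⟩, hs⟩ := hE.supp β hβ
      rw [hA0, mem_filter]
      refine ⟨hs hx, ?_⟩
      have h1 : x.1 ∈ rows β := mem_rows.2 ⟨x, hx, rfl⟩
      rw [hr] at h1
      exact mem_of_mem_erase h1
    have hR0 : Rich G B J A0 (2 * (s + 1)) := by
      intro i hi W hW hc
      obtain ⟨v, hv, hw⟩ := hR i hi W hW hc
      refine ⟨v, ?_, hw⟩
      rw [hA0, mem_filter]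
      exact ⟨hv, hi⟩
    have hB0 : ∀ x ∈ A0, x.2 ∈ B := fun x hx => hA x (hA0A hx)
    have hne : J.Nonempty := by
      rw [← card_pos, hJ]
      omega
    obtain ⟨i0, hi0⟩ := hne
    obtain ⟨v0, hv0, -⟩ := hR0 i0 hi0 ∅ (empty_subset _) (by simp)
    have hv0B : v0 ∈ B := hB0 _ hv0
    have hcom : ∀ w ∈ A0, ∀ i ∈ J, ∀ W ⊆ B, W.card ≤ 2 * s →
        ∃ v, (i, v) ∈ A0 ∧ G.Adj v v0 ∧ G.Adj v w.2 ∧ ∀ u ∈ W, G.Adj v u := by
      intro w hw i hi W hW hc
      obtain ⟨v, hv, h1⟩ := hR0 i hi (insert v0 (insert w.2 W))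
        (insert_subset hv0B (insert_subset (hB0 w hw) hW)) (by
          have h2 := card_insert_le v0 (insert w.2 W)
          have h3 := card_insert_le w.2 W
          omega)
      exact ⟨v, hv, h1 v0 (mem_insert_self _ _), h1 w.2 (mem_insert_of_mem (mem_insert_self _ _)),
        fun u hu => h1 u (mem_insert_of_mem (mem_insert_of_mem hu))⟩
    obtain ⟨T1, hT1⟩ : ∃ T1, T1 = A0.filter fun x => x.1 ≠ i0 ∧ ¬ G.Adj x.2 v0 := ⟨_, rfl⟩
    have hT1A : T1 ⊆ A0 := by rw [hT1]; exact filter_subset _ _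
    have hnT1 : ∀ i v, G.Adj v v0 → (i, v) ∉ T1 := by
      intro i v h h1
      rw [hT1, mem_filter] at h1
      exact h1.2.2 h
    obtain ⟨D1, hD1, hE1⟩ := push_many (s := s) (fun J A E h1 h2 h3 h4 => IH J A E h1 h2 h3 h4) hJ hB0 T1
      (fun w hw => hA0J w (hT1A hw)) (fun w hw A' h1 h2 i hi W hW hc => by
        obtain ⟨v, hv, h3, h4, h5⟩ := hcom w (hT1A hw) i (mem_of_mem_erase hi) W hW hc
        refine ⟨v, mem_filter.2 ⟨h1 (mem_sdiff.2 ⟨hv, hnT1 i v h3⟩), ne_of_mem_erase hi, h4⟩, h5⟩) hE0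
    obtain ⟨A1, hA1⟩ : ∃ A1, A1 = A0 \ T1 := ⟨_, rfl⟩
    rw [← hA1] at hE1
    have hA1A : A1 ⊆ A0 := by rw [hA1]; exact sdiff_subset
    obtain ⟨T2, hT2⟩ : ∃ T2, T2 = A1.filter fun x => x.1 = i0 := ⟨_, rfl⟩
    have hT2A : T2 ⊆ A1 := by rw [hT2]; exact filter_subset _ _
    obtain ⟨D2, hD2, hE2⟩ := push_many (s := s) (fun J A E h1 h2 h3 h4 => IH J A E h1 h2 h3 h4) hJ
      (fun x hx => hB0 x (hA1A hx)) T2
      (fun w hw => hA0J w (hA1A (hT2A hw))) (fun w hw A' h1 h2 i hi W hW hc => by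
        obtain ⟨v, hv, h3, h4, h5⟩ := hcom w (hA1A (hT2A hw)) i (mem_of_mem_erase hi) W hW hc
        have hwi : w.1 = i0 := by
          rw [hT2, mem_filter] at hw
          exact hw.2
        refine ⟨v, mem_filter.2 ⟨h1 (mem_sdiff.2 ⟨?_, ?_⟩), ne_of_mem_erase hi, h4⟩, h5⟩
        · rw [hA1, mem_sdiff]
          exact ⟨hv, hnT1 i v h3⟩
        · intro h6
          rw [hT2, mem_filter] at h6
          exact ne_of_mem_erase hi (h6.2.trans hwi.symm)) hE1
    have hA2 : ∀ x ∈ A1 \ T2, x.1 ≠ ((i0, v0) : ι × V).1 ∧ G.Adj x.2 ((i0, v0) : ι × V).2 := by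
      intro x hx
      rw [mem_sdiff] at hx
      have h1 : x.1 ≠ i0 := fun h2 => hx.2 (by rw [hT2, mem_filter]; exact ⟨hx.1, h2⟩)
      refine ⟨h1, ?_⟩
      by_contra h3
      have h4 := hx.1
      rw [hA1, mem_sdiff] at h4
      exact h4.2 (by rw [hT1, mem_filter]; exact ⟨h4.1, h1, h3⟩)
    obtain ⟨D3, hD3, hm3⟩ := last_step (x0 := (i0, v0)) hi0 hv0 hv0B
      ((sdiff_subset (s := A1) (t := T2)).trans hA1A) hA2 hE2
    refine ⟨D1 + D2 + D3, ((hD1.add (hD2.mono hA1A)).add hD3).mono hA0A, ?_⟩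
    rw [marg_add, marg_add, hm3]
    abel

end Pool.Agent.H82.PC
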