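/-
Duality (helper82): a local relation without top part is a sum of relations with fewer rows. Paper proof: section 2 of /team-store/H82_PC.md.
-/
import Pool.Agent.H82.PC.Ex
import Pool.Agent.H82.PC.Zm

set_option autoImplicit false
set_option linter.unusedSectionVars false

open Finset

namespace Pool.Agent.H82.PC

variable {ι V : Type} [Fintype ι] [DecidableEq ι] [Fintype V] [DecidableEq V] {F : Type} [Field F]
  {G : SimpleGraph V} {B : Finset V} {J : Finset ι}


/-- In a clique set exactly one vertex lies in each of its rows. -/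
theorem sum_row {α : Finset (ι × V)} (hα : Cl G B α) {i : ι} (hi : i ∈ rows α) (c : F) :
    ∑ v : V, (if (i, v) ∈ α then c else 0) = c := by
  obtain ⟨⟨i', v⟩, hx, hxi⟩ := mem_rows.1 hi
  simp only at hxi
  subst hxi
  rw [sum_eq_single v]
  · rw [if_pos hx]
  · intro w _ hw
    rw [if_neg]
    intro hw2
    exact (hα.2 _ hx _ hw2 (fun h => hw (by rw [Prod.mk.injEq] at h; exact h.2.symm))).1 rfl
  · intro h
    exact absurd (mem_univ _) h

open Classical in
theorem step_rel {f : (Finset (ι × V) → F) →ₗ[F] F} (hf : ∀ j ∈ J, ∀ Q ∈ (Z G B (J.erase j) : Submodule F (Finset (ι × V) → F)), f Q = 0)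
    {β : Finset (ι × V)} (hβ : Cl G B β) {i : ι} (hi : i ∉ rows β) {j : ι} (hj : j ∈ J)
    (hs : insert i (rows β) ⊆ J.erase j) :
    f (Pi.single β 1) = ∑ v : V, if Cl G B (insert (i, v) β) then f (Pi.single (insert (i, v) β) 1) else 0 := by
  have h1 := hf j hj _ (Z_mono hs (one_sub hβ hi))
  rw [map_sub, sub_eq_zero, map_sum] at h1
  rw [h1]
  refine sum_congr rfl fun v _ => ?_
  split_ifs
  · rfl
  · rw [map_zero]

open Classical in
theorem step_D {D : Finset (ι × V) → F} (hD : ∀ α, D α ≠ 0 → Cl G B α ∧ rows α = J) {β : Finset (ι × V)}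
    {i : ι} (hi : i ∈ J) :
    ∑ v : V, ∑ α : Finset (ι × V), (if insert (i, v) β ⊆ α then D α else 0) = ∑ α, if β ⊆ α then D α else 0 := by
  rw [sum_comm]
  refine sum_congr rfl fun α _ => ?_
  by_cases h0 : D α = 0
  · simp only [h0, ite_self, sum_const_zero]
  · obtain ⟨h1, h2⟩ := hD α h0
    by_cases h3 : β ⊆ α
    · rw [if_pos h3]
      have h4 : ∀ v : V, (insert (i, v) β ⊆ α) ↔ ((i, v) ∈ α) := fun v => by
        rw [insert_subset_iff]
        exact and_iff_left h3
      simp only [h4]
      exact sum_row h1 (h2 ▸ hi) _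
    · rw [if_neg h3]
      refine sum_eq_zero fun v _ => ?_
      rw [if_neg]
      exact fun h => h3 ((subset_insert _ _).trans h)

open Classical in
theorem f_single {s : ℕ} (hJ : J.card = s + 1) {f : (Finset (ι × V) → F) →ₗ[F] F}
    (hf : ∀ j ∈ J, ∀ Q ∈ (Z G B (J.erase j) : Submodule F (Finset (ι × V) → F)), f Q = 0)
    {A : Finset (ι × V)} {D : Finset (ι × V) → F} (hD : Full G B J A D)
    (hm : marg D = fun β => if Cl G B β ∧ ∃ j ∈ J, rows β = J.erase j then f (Pi.single β 1) else 0) :
    ∀ (n : ℕ) (β : Finset (ι × V)), Cl G B β → rows β ⊆ J → (rows β).card + n = s →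
      f (Pi.single β 1) = ∑ α, if β ⊆ α then D α else 0 := by
  intro n
  induction n with
  | zero =>
    intro β hβ hr hc
    have h1 : ∃ j ∈ J, j ∉ rows β := by
      by_contra hno
      push Not at hno
      have := card_le_card (show J ⊆ rows β from hno)
      omega
    obtain ⟨j, hj, hjr⟩ := h1
    have h2 : rows β = J.erase j := by
      refine eq_of_subset_of_card_le (fun i hi => mem_erase.2 ⟨fun h => hjr (h ▸ hi), hr hi⟩) ?_
      rw [card_erase_of_mem hj]
      omega
    have h3 : f (Pi.single β 1) = marg D β := by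
      rw [hm]
      simp only
      rw [if_pos ⟨hβ, j, hj, h2⟩]
    rw [h3, marg_eq hD hj h2, ← step_D (fun α h => ⟨(hD α h).1, (hD α h).2.1⟩) hj]
    refine sum_congr rfl fun v _ => ?_
    rw [sum_eq_single (insert (j, v) β)]
    · rw [if_pos (Subset.refl _)]
    · intro α _ hα
      by_cases h0 : D α = 0
      · rw [h0, ite_self]
      · rw [if_neg]
        intro h4
        obtain ⟨h5, h6, _⟩ := hD α h0
        refine hα (eq_of_subset_of_card_le h4 ?_).symm
        rw [card_insert_of_notMem fun h => hjr (mem_rows.2 ⟨_, h, rfl⟩), ← h5.card_rows, h6, hJ, ← hβ.card_rows]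
        omega
    · intro h
      exact absurd (mem_univ _) h
  | succ n ih =>
    intro β hβ hr hc
    have h1 : ∃ i ∈ J, i ∉ rows β := by
      by_contra hno
      push Not at hno
      have := card_le_card (show J ⊆ rows β from hno)
      omega
    obtain ⟨i, hi, hir⟩ := h1
    have hic : (insert i (rows β)).card = (rows β).card + 1 := card_insert_of_notMem hir
    have h2 : ∃ j ∈ J, j ∉ insert i (rows β) := by
      by_contra hno
      push Not at hno
      have := card_le_card (show J ⊆ insert i (rows β) from hno)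
      omega
    obtain ⟨j, hj, hjr⟩ := h2
    have h3 : insert i (rows β) ⊆ J.erase j := fun x hx => mem_erase.2 ⟨fun h => hjr (h ▸ hx),
      insert_subset_iff.2 ⟨hi, hr⟩ hx⟩
    rw [step_rel hf hβ hir hj h3, ← step_D (fun α h => ⟨(hD α h).1, (hD α h).2.1⟩) hi]
    refine sum_congr rfl fun v _ => ?_
    by_cases h4 : Cl G B (insert (i, v) β)
    · rw [if_pos h4]
      refine ih _ h4 ?_ ?_
      · rw [rows_insert]
        exact insert_subset_iff.2 ⟨hi, hr⟩
      · rw [rows_insert, hic]
        omega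
    · rw [if_neg h4]
      symm
      refine sum_eq_zero fun α _ => ?_
      by_cases h0 : D α = 0
      · rw [h0, ite_self]
      · rw [if_neg]
        exact fun h5 => h4 ((hD α h0).1.mono h5)

/-- A local relation without top part is a sum of relations with fewer rows. -/
theorem dual {s : ℕ} (hJ : J.card = s + 1)
    (hR : ∀ W ⊆ B, W.card ≤ 2 * s → ∃ v ∈ B, ∀ w ∈ W, G.Adj v w) {P : Finset (ι × V) → F}
    (hP : P ∈ (Z G B J : Submodule F (Finset (ι × V) → F))) (hc : ∀ β, P β ≠ 0 → β.card ≤ s) :
    P ∈ (⨆ j ∈ J, Z G B (J.erase j) : Submodule F (Finset (ι × V) → F)) := by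
  classical
  by_contra hno
  obtain ⟨f, hf1, hf2⟩ := Submodule.exists_le_ker_of_notMem hno
  have hf : ∀ j ∈ J, ∀ Q ∈ (Z G B (J.erase j) : Submodule F (Finset (ι × V) → F)), f Q = 0 := fun j hj Q hQ => by
    have h1 : Q ∈ (⨆ j ∈ J, Z G B (J.erase j) : Submodule F (Finset (ι × V) → F)) :=
      (le_iSup₂ (f := fun j (_ : j ∈ J) => (Z G B (J.erase j) : Submodule F (Finset (ι × V) → F))) j hj) hQ
    exact LinearMap.mem_ker.1 (hf2 h1)
  set E : Finset (ι × V) → F := fun β => if Cl G B β ∧ ∃ j ∈ J, rows β = J.erase j then f (Pi.single β 1) else 0 with hE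
  have hfam : Fam G B J (J ×ˢ B) E := by
    refine ⟨fun β hβ => ?_, ?_⟩
    · have h1 : Cl G B β ∧ ∃ j ∈ J, rows β = J.erase j := by
        by_contra h1
        exact hβ (if_neg h1)
      refine ⟨h1.1, h1.2, fun x hx => ?_⟩
      obtain ⟨j, hj, hr⟩ := h1.2
      have h2 : x.1 ∈ rows β := mem_rows.2 ⟨x, hx, rfl⟩
      rw [hr] at h2
      exact mem_product.2 ⟨mem_of_mem_erase h2, h1.1.1 x hx⟩
    · have key : ∀ i ∈ J, ∀ j ∈ J, i ≠ j → ∀ β, Cl G B β → rows β = (J.erase i).erase j →
          ∑ v, E (insert (i, v) β) = f (Pi.single β 1) := by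
        intro i hi j hj hij β hβ hr
        have h1 : insert i (rows β) = J.erase j := by
          rw [hr, erase_right_comm, insert_erase (mem_erase.2 ⟨hij, hi⟩)]
        have h2 : i ∉ rows β := by
          rw [hr, erase_right_comm]
          exact notMem_erase _ _
        rw [step_rel hf hβ h2 hj h1.le]
        refine sum_congr rfl fun v _ => ?_
        simp only [hE]
        refine if_congr ?_ rfl rfl
        refine and_iff_left_of_imp fun _ => ⟨j, hj, ?_⟩
        rw [rows_insert, ← h1]
      intro i hi j hj hij β hβ hr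
      rw [key i hi j hj hij β hβ hr, key j hj i hi (Ne.symm hij) β hβ (by rw [hr, erase_right_comm])]
  obtain ⟨D, hD1, hD2⟩ := ext_main s J (J ×ˢ B) E hJ (fun i hi W hW hW2 => by
    obtain ⟨v, hv, hv2⟩ := hR W hW hW2
    exact ⟨v, mem_product.2 ⟨hi, hv⟩, hv2⟩) (fun x hx => (mem_product.1 hx).2) hfam
  have h4 := f_single hJ hf hD1 hD2
  apply hf1
  have h5 : P = ∑ β, P β • (Pi.single β 1 : Finset (ι × V) → F) := by
    conv_lhs => rw [← Finset.univ_sum_single P]
    refine sum_congr rfl fun β _ => ?_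
    rw [← Pi.single_smul, smul_eq_mul, mul_one]
  have h6 : ∀ β, P β * f (Pi.single β 1) = P β * ∑ α, if β ⊆ α then D α else 0 := by
    intro β
    by_cases h0 : P β = 0
    · rw [h0, zero_mul, zero_mul]
    · obtain ⟨h7, h8⟩ := (mem_Z.1 hP).1 β h0
      have h9 := hc β h0
      rw [h4 (s - (rows β).card) β h7 h8 (by rw [h7.card_rows]; omega)]
  rw [h5, map_sum]
  simp only [map_smul, smul_eq_mul, h6, mul_sum]
  rw [sum_comm]
  refine sum_eq_zero fun α _ => ?_
  by_cases h0 : D α = 0
  · simp only [h0, ite_self, mul_zero, sum_const_zero]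
  · obtain ⟨h7, h8, _⟩ := hD1 α h0
    have h9 := (mem_Z.1 hP).2 α h7 h8
    have h10 : ∑ β, P β * (if β ⊆ α then D α else 0) = (∑ β ∈ α.powerset, P β) * D α := by
      rw [sum_mul, ← sum_filter_add_sum_filter_not univ (fun β => β ⊆ α)]
      have h11 : univ.filter (fun β => β ⊆ α) = α.powerset := by
        ext β
        simp
      rw [h11, sum_congr rfl (g := fun β => P β * D α) (fun β hβ => by rw [if_pos (mem_powerset.1 hβ)]),
        sum_congr (s₁ := univ.filter fun β => ¬ β ⊆ α) rfl (g := fun _ => (0 : F)) (fun β hβ => by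
          rw [if_neg (mem_filter.1 hβ).2, mul_zero]), sum_const_zero, add_zero]
    rw [h10, h9, zero_mul]

end Pool.Agent.H82.PC
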