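/-
Descent.
-/
import Pool.Agent.H82.PC.Du

set_option autoImplicit false
set_option linter.unusedSectionVars false

open Finset

namespace Pool.Agent.H82.PC

variable {ι V : Type} [Fintype ι] [DecidableEq ι] [Fintype V] [DecidableEq V] {F : Type} [Field F]
  {G : SimpleGraph V} {B : Finset V}

theorem Ze_U_zero : U F G B ι 0 ≤ Z G B ∅ := by
  refine iSup₂_le fun J hJ => ?_
  have h1 : J = ∅ := by
    have h2 := (mem_filter.1 hJ).2
    exact card_eq_zero.1 (Nat.le_zero.1 h2)
  rw [h1]

theorem Ze_le_U {s : ℕ} {J : Finset ι} (h : J.card ≤ s) : (Z G B J : Submodule F (Finset (ι × V) → F)) ≤ U F G B ι s := by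
  have h1 : J ∈ (univ : Finset (Finset ι)).filter (fun J => J.card ≤ s) := mem_filter.2 ⟨mem_univ _, h⟩
  exact le_iSup₂ (f := fun (J : Finset ι) (_ : J ∈ (univ : Finset (Finset ι)).filter (fun J => J.card ≤ s)) =>
    (Z G B J : Submodule F (Finset (ι × V) → F))) J h1

theorem descend {s : ℕ} (hR : ∀ W ⊆ B, W.card ≤ 2 * s → ∃ v ∈ B, ∀ w ∈ W, G.Adj v w)
    {P : Finset (ι × V) → F} (hP : P ∈ U F G B ι (s + 1)) (hc : ∀ β, P β ≠ 0 → β.card ≤ s) : P ∈ U F G B ι s := by
  obtain ⟨μ, hμ⟩ := (Submodule.mem_iSup_finset_iff_exists_sum _ _).1 hP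
  rw [← hμ]
  refine Submodule.sum_mem _ fun J hJ => ?_
  have hJ1 : J.card ≤ s + 1 := (mem_filter.1 hJ).2
  rcases Nat.lt_or_ge s J.card with h | h
  · have hJ2 : J.card = s + 1 := by omega
    have hz := mem_Z.1 (μ J).2
    have hcJ : ∀ β, (μ J : Finset (ι × V) → F) β ≠ 0 → β.card ≤ s := by
      intro β hβ
      by_contra hlt
      obtain ⟨h1, h2⟩ := hz.1 β hβ
      have h3 := h1.card_rows
      have h4 := card_le_card h2
      have h5 : rows β = J := eq_of_subset_of_card_le h2 (by omega)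
      have h6 : P β = (μ J : Finset (ι × V) → F) β := by
        rw [← hμ, Finset.sum_apply]
        refine sum_eq_single J ?_ ?_
        · intro J' hJ' hne
          by_contra h7
          obtain ⟨-, h8⟩ := (mem_Z.1 (μ J').2).1 β h7
          rw [h5] at h8
          have h9 : J'.card ≤ s + 1 := (mem_filter.1 hJ').2
          exact hne (eq_of_subset_of_card_le h8 (by omega)).symm
        · intro h7
          exact absurd hJ h7
      have h7 := hc β (by rw [h6]; exact hβ)
      omega
    have h8 := dual hJ2 hR (μ J).2 hcJ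
    refine (iSup₂_le fun j hj => ?_ : (⨆ j ∈ J, Z G B (J.erase j) : Submodule F (Finset (ι × V) → F)) ≤ U F G B ι s) h8
    refine Ze_le_U ?_
    rw [card_erase_of_mem hj]
    omega
  · exact Ze_le_U h (μ J).2

theorem one_notMem {d : ℕ} (hR : ∀ W ⊆ B, W.card ≤ 2 * d → ∃ v ∈ B, ∀ w ∈ W, G.Adj v w) {s : ℕ} (hs : s ≤ d) :
    (Pi.single ∅ 1 : Finset (ι × V) → F) ∉ U F G B ι s := by
  induction s with
  | zero =>
    intro h
    have h1 := (mem_Z.1 (Ze_U_zero h)).2 ∅ ⟨fun x hx => absurd hx (notMem_empty _), fun x hx => absurd hx (notMem_empty _)⟩ rfl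
    rw [powerset_empty, sum_singleton, Pi.single_eq_same] at h1
    exact one_ne_zero h1
  | succ s ih =>
    intro h
    refine ih (by omega) (descend (fun W hW hWc => hR W hW (by omega)) h fun β hβ => ?_)
    by_cases h1 : β = ∅
    · rw [h1, card_empty]
      exact Nat.zero_le _
    · exact absurd (Pi.single_eq_of_ne h1 _) hβ

end Pool.Agent.H82.PC
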