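/-
ROW Dg (about 60 lines). The degree lower bound. Uses the statements of Ze, Ph, Zm (`mulx_U`).
PROOF. All `phi G B (P t) ∈ U F G B (Fin k) d` by strong induction on `t` (`Fin.induction` or `Nat.strong_induction_on` for `t.val`): axiom: `phi_axiom`, `U 1 ≤ U d` (`biSup_mono`); combination: `phi_add`, `phi_C_mul`, submodule; product: `phi_X_mul`, `mulx_U`: in `U (d + 1)`; `descend` with `s = d`: if `phi G B (P t) γ ≠ 0` then (`phi_supp`) `γ = m.support`, `Cl G B γ`, so `γ.card ≤ d` by `hc`.
 With `hP.last` and `phi_one`: `Pi.single ∅ 1 ∈ U d`, against `one_notMem`.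
-/
import Pool.Agent.H82.PC.Ze
import Pool.Agent.H82.PC.Ph

set_option autoImplicit false
set_option linter.unusedSectionVars false

open Finset MvPolynomial

namespace Pool.Agent.H82.PC

/-- If at most `2 d` vertices of `B` always have a common neighbour in `B`, a refutation contains a monomial whose support is a clique of more than
`d` vertices in `B` in different rows. -/
theorem degree {V F : Type} [Fintype V] [DecidableEq V] [Field F] {G : SimpleGraph V} {B : Finset V} {k S d : ℕ}
    {P : Fin S → MvPolynomial (Fin k × V) F} (hP : PCRefutation G k S P) (hd : 1 ≤ d)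
    (hc : ∀ t, ∀ m ∈ (P t).support, Cl G B m.support → m.support.card ≤ d)
    (hR : ∀ W ⊆ B, W.card ≤ 2 * d → ∃ v ∈ B, ∀ w ∈ W, G.Adj v w) : False := by
  have h1 : (U F G B (Fin k) 1 : Submodule F (Finset (Fin k × V) → F)) ≤ U F G B (Fin k) d := by
    refine iSup₂_le fun J hJ => Ze_le_U ?_
    exact (mem_filter.1 hJ).2.trans hd
  have key : ∀ n : ℕ, ∀ t : Fin S, t.val = n → phi G B (P t) ∈ U F G B (Fin k) d := by
    intro n
    induction n using Nat.strong_induction_on with
    | _ n ih =>
      intro t ht
      rcases hP.step t with ha | ⟨r, u, a, b, hr, hu, he⟩ | ⟨r, x, hr, he⟩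
      · exact h1 (phi_axiom ha)
      · rw [he, phi_add, phi_C_mul, phi_C_mul]
        refine Submodule.add_mem _ (Submodule.smul_mem _ _ (ih r.val ?_ r rfl))
          (Submodule.smul_mem _ _ (ih u.val ?_ u rfl))
        · rw [← ht]
          exact hr
        · rw [← ht]
          exact hu
      · refine descend hR ?_ fun β hβ => ?_
        · rw [he, phi_X_mul]
          refine mulx_U x (ih r.val ?_ r rfl)
          rw [← ht]
          exact hr
        · obtain ⟨h2, m, hm, rfl⟩ := phi_supp hβ
          exact hc t m hm h2
  obtain ⟨s, hs⟩ := hP.last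
  have h2 := key s.val s rfl
  rw [hs, phi_one] at h2
  exact one_notMem hR le_rfl h2

end Pool.Agent.H82.PC
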