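import Mathlib

/-!
# Polynomial calculus refutations of the k-clique formula

`G` is a graph; the variable `(i, v)` says that the `i`-th vertex of the clique is `v`.
-/

namespace Pool.Agent.H82.PC

open Finset MvPolynomial

/-- The polynomials of the `k`-clique formula of the graph `G` over the field `F`: exactly one vertex is the `i`-th vertex of the
clique; two vertices which are not adjacent (two equal vertices in particular) are not the `i`-th and the `j`-th vertex for
`i ≠ j`; the variables have the values 0 and 1. -/
inductive CliqueAxiom {F V : Type} [Field F] [Fintype V] (G : SimpleGraph V) (k : ℕ) : MvPolynomial (Fin k × V) F → Prop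
  | chosen (i : Fin k) : CliqueAxiom G k ((∑ v : V, X (i, v)) - 1)
  | single (i : Fin k) (v w : V) : v ≠ w → CliqueAxiom G k (X (i, v) * X (i, w))
  | edge (i j : Fin k) (v w : V) : i ≠ j → ¬ G.Adj v w → CliqueAxiom G k (X (i, v) * X (j, w))
  | bool (i : Fin k) (v : V) : CliqueAxiom G k (X (i, v) ^ 2 - X (i, v))

/-- A polynomial calculus refutation with the lines `P s`, `s < S`: every line is an axiom, a linear combination of two earlier
lines or the product of a variable and an earlier line; some line is `1`. -/
structure PCRefutation {F V : Type} [Field F] [Fintype V] (G : SimpleGraph V) (k S : ℕ)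
    (P : Fin S → MvPolynomial (Fin k × V) F) : Prop where
  step : ∀ s, CliqueAxiom G k (P s) ∨ (∃ (r t : Fin S) (a b : F), r < s ∧ t < s ∧ P s = C a * P r + C b * P t) ∨
    ∃ (r : Fin S) (x : Fin k × V), r < s ∧ P s = X x * P r
  last : ∃ s, P s = 1

/-- The set of the monomials which occur in the polynomials `P s`. -/
noncomputable def monomials {σ F : Type} [Field F] {S : ℕ} (P : Fin S → MvPolynomial σ F) : Finset (σ →₀ ℕ) := by
  classical exact univ.biUnion fun s => (P s).support

end Pool.Agent.H82.PC
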